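import Mathlib
import Pool.Agent.H32.Side

namespace Pool.Agent.Results.MP_9b45c5_lc.Six
open Finset

/-- A request: a directed path with at least one arc in the (bidirected) tree `T`. -/
structure Req {V : Type} (T : SimpleGraph V) where
  s : V
  t : V
  p : T.Walk s t
  isPath : p.IsPath
  notNil : ¬ p.Nil

/-- `r` interferes on `r'`: the path from `s_r` to `t_{r'}` has first arc the emission arc of `r`
and last arc the reception arc of `r'`. -/
def Interferes {V : Type} {T : SimpleGraph V} (r r' : Req T) : Prop :=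
  ∃ q : T.Walk r.s r'.t, q.IsPath ∧ ¬ q.Nil ∧ q.snd = r.p.snd ∧
    q.penultimate = r'.p.penultimate

/-- The interference graph of a family of requests. -/
def IG {V R : Type} {T : SimpleGraph V} (req : R → Req T) : SimpleGraph R :=
  SimpleGraph.fromRel (fun a b => Interferes (req a) (req b))

/-- `Run G U m`: some run of greedy MIS colouring started with uncoloured set `U` uses `m`
colours. -/
inductive Run {R : Type} [DecidableEq R] (G : SimpleGraph R) : Finset R → ℕ → Prop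
  | done : Run G ∅ 0
  | step (U I : Finset R) (m : ℕ) : U.Nonempty → I ⊆ U → G.IsIndepSet (I : Set R) →
      (∀ J : Finset R, J ⊆ U → G.IsIndepSet (J : Set R) → J.card ≤ I.card) →
      Run G (U \ I) m → Run G U (m + 1)

section pot
open Classical
variable {V R : Type} [Fintype V] [DecidableEq R] (K : R → Prop) (D : R → Set V)

noncomputable def cnt (U : Finset R) (z : V × V) : ℕ :=
  (U.filter (fun r => K r ∧ (z.1 ∈ D r ∨ z.2 ∈ D r))).card

noncomputable def phi (U : Finset R) : ℕ := univ.sup (cnt K D U)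

lemma phi_mono {U U' : Finset R} (h : U' ⊆ U) : phi K D U' ≤ phi K D U :=
  Finset.sup_mono_fun fun _ _ => card_le_card (filter_subset_filter _ h)

lemma phi_le (G : SimpleGraph R) (n : ℕ) (hc : G.Colorable n)
    (hadj : ∀ r r', K r → K r' → r ≠ r' → (G.Adj r r' ↔ (D r ∩ D r').Nonempty))
    (U : Finset R) : phi K D U ≤ 2 * n := by
  have h1 : ∀ z : V, (U.filter (fun r => K r ∧ z ∈ D r)).card ≤ n := by
    intro z
    refine SimpleGraph.IsClique.card_le_of_colorable ?_ hc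
    intro r hr r' hr' hne
    simp only [coe_filter, Set.mem_ofPred_eq] at hr hr'
    exact (hadj r r' hr.2.1 hr'.2.1 hne).2 ⟨z, hr.2.2, hr'.2.2⟩
  refine Finset.sup_le fun z _ => ?_
  have : U.filter (fun r => K r ∧ (z.1 ∈ D r ∨ z.2 ∈ D r)) ⊆
      U.filter (fun r => K r ∧ z.1 ∈ D r) ∪ U.filter (fun r => K r ∧ z.2 ∈ D r) := by
    intro r hr
    simp only [mem_filter, mem_union] at hr ⊢
    tauto
  have h2 := le_trans (card_le_card this) (card_union_le _ _)
  have := h1 z.1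
  have := h1 z.2
  unfold cnt
  omega

lemma grow (U I : Finset R) (hI : I ⊆ U) (z w : V × V) (q : R) (hq : q ∈ I) (hK : K q)
    (hw : w.1 ∈ D q ∨ w.2 ∈ D q)
    (h : ∀ r ∈ U \ I, K r → (z.1 ∈ D r ∨ z.2 ∈ D r) → (w.1 ∈ D r ∨ w.2 ∈ D r)) :
    cnt K D (U \ I) z < phi K D U := by
  refine lt_of_lt_of_le ?_ (Finset.le_sup (f := cnt K D U) (mem_univ w))
  refine card_lt_card ⟨fun r hr => ?_, fun hs => ?_⟩
  · rw [mem_filter] at hr ⊢
    exact ⟨(mem_sdiff.1 hr.1).1, hr.2.1, h r hr.1 hr.2.1 hr.2.2⟩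
  · have := hs (mem_filter.2 ⟨hI hq, hK, hw⟩)
    exact (mem_sdiff.1 (mem_filter.1 this).1).2 hq

lemma half (hne : ∀ r, K r → (D r).Nonempty)
    (hlam : ∀ r r', K r → K r' → (D r ∩ D r').Nonempty → D r ⊆ D r' ∨ D r' ⊆ D r)
    (U' I : Finset R) (hq : ∃ q ∈ I, K q) (z : V) :
    (∃ w, ∃ q ∈ I, K q ∧ w ∈ D q ∧ ∀ r ∈ U', K r → z ∈ D r → w ∈ D r) ∨
    (∃ x ∈ U', K x ∧ (∀ r ∈ U', K r → z ∈ D r → D x ⊆ D r) ∧
      ∀ q ∈ I, K q → ¬ (D q ∩ D x).Nonempty) := by
  rcases (U'.filter (fun r => K r ∧ z ∈ D r)).eq_empty_or_nonempty with he | hn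
  · obtain ⟨q, hq, hK⟩ := hq
    obtain ⟨w, hw⟩ := hne q hK
    refine Or.inl ⟨w, q, hq, hK, hw, fun r hr h1 h2 => ?_⟩
    have : r ∈ U'.filter (fun r => K r ∧ z ∈ D r) := mem_filter.2 ⟨hr, h1, h2⟩
    rw [he] at this
    simp at this
  · obtain ⟨x, hx, hmin⟩ := exists_min_image _ (fun r => (D r).ncard) hn
    rw [mem_filter] at hx
    have hsub : ∀ r ∈ U', K r → z ∈ D r → D x ⊆ D r := by
      intro r hr h1 h2
      rcases hlam x r hx.2.1 h1 ⟨z, hx.2.2, h2⟩ with h | h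
      · exact h
      · exact (Set.eq_of_subset_of_ncard_le h (hmin r (mem_filter.2 ⟨hr, h1, h2⟩))
          (Set.toFinite _)).ge
    by_cases hc : ∃ q ∈ I, K q ∧ (D q ∩ D x).Nonempty
    · obtain ⟨q, hq, hK, w, hw1, hw2⟩ := hc
      exact Or.inl ⟨w, q, hq, hK, hw1, fun r hr h1 h2 => hsub r hr h1 h2 hw2⟩
    · push Not at hc
      refine Or.inr ⟨x, hx.1, hx.2.1, hsub, fun q hq hK => ?_⟩
      rw [hc q hq hK]
      exact Set.not_nonempty_empty

lemma dec [Nonempty V] [DecidablePred K] (G : SimpleGraph R) (hne : ∀ r, K r → (D r).Nonempty)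
    (hlam : ∀ r r', K r → K r' → (D r ∩ D r').Nonempty → D r ⊆ D r' ∨ D r' ⊆ D r)
    (hadj : ∀ r r', K r → K r' → r ≠ r' → (G.Adj r r' ↔ (D r ∩ D r').Nonempty))
    (U I : Finset R) (hI : I ⊆ U) (hind : G.IsIndepSet (I : Set R)) (hq : ∃ q ∈ I, K q)
    (hmax : ∀ J : Finset R, J ⊆ U → G.IsIndepSet (J : Set R) → J.card ≤ (I.filter K).card + 1) :
    phi K D (U \ I) < phi K D U := by
  obtain ⟨z, _, hz⟩ := exists_mem_eq_sup univ univ_nonempty (cnt K D (U \ I))
  have hz' : phi K D (U \ I) = cnt K D (U \ I) z := hz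
  rw [hz']
  rcases half K D hne hlam (U \ I) I hq z.1 with ⟨w, q, h1, h2, h3, h4⟩ | ⟨x, hx, hKx, hx1, hx2⟩
  · refine grow K D U I hI z (w, z.2) q h1 h2 (Or.inl h3) fun r hr hK h => ?_
    exact h.imp (h4 r hr hK) id
  rcases half K D hne hlam (U \ I) I hq z.2 with ⟨w, q, h1, h2, h3, h4⟩ | ⟨y, hy, hKy, hy1, hy2⟩
  · refine grow K D U I hI z (z.1, w) q h1 h2 (Or.inr h3) fun r hr hK h => ?_
    exact h.imp id (h4 r hr hK)
  by_cases hxy : (D x ∩ D y).Nonempty
  · obtain ⟨w, hw1, hw2⟩ := hxy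
    obtain ⟨q, h1, h2⟩ := hq
    obtain ⟨w', hw'⟩ := hne q h2
    refine grow K D U I hI z (w, w') q h1 h2 (Or.inr hw') fun r hr hK h => Or.inl ?_
    rcases h with h | h
    · exact hx1 r hr hK h hw1
    · exact hy1 r hr hK h hw2
  · exfalso
    have hxy' : x ≠ y := by
      rintro rfl
      apply hxy
      rw [Set.inter_self]
      exact hne x hKx
    have hxI : x ∉ I := (mem_sdiff.1 hx).2
    have hyI : y ∉ I := (mem_sdiff.1 hy).2
    have h := hmax (insert x (insert y (I.filter K))) ?_ ?_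
    · rw [card_insert_of_notMem, card_insert_of_notMem] at h
      · omega
      · exact fun h => hyI (mem_filter.1 h).1
      · rw [mem_insert, not_or]
        exact ⟨hxy', fun h => hxI (mem_filter.1 h).1⟩
    · intro r hr
      rcases mem_insert.1 hr with rfl | hr
      · exact (mem_sdiff.1 hx).1
      rcases mem_insert.1 hr with rfl | hr
      · exact (mem_sdiff.1 hy).1
      · exact hI (mem_filter.1 hr).1
    · intro a ha b hb hab hadj'
      simp only [coe_insert, coe_filter, Set.mem_insert_iff, Set.mem_ofPred_eq] at ha hb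
      have hKa : K a := by rcases ha with rfl | rfl | h; exacts [hKx, hKy, h.2]
      have hKb : K b := by rcases hb with rfl | rfl | h; exacts [hKx, hKy, h.2]
      have hi := (hadj a b hKa hKb hab).1 hadj'
      have hi' : (D b ∩ D a).Nonempty := by rwa [Set.inter_comm]
      rcases ha with rfl | rfl | ha <;> rcases hb with rfl | rfl | hb
      · exact hab rfl
      · exact hxy hi
      · exact hx2 b hb.1 hb.2 hi'
      · exact hxy hi'
      · exact hab rfl
      · exact hy2 b hb.1 hb.2 hi'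
      · exact hx2 a ha.1 ha.2 hi
      · exact hy2 a ha.1 ha.2 hi
      · exact hind ha.1 hb.1 hab hadj'

end pot

lemma core {V : Type} [Fintype V] (F : Set V → Prop)
    (hlam : ∀ A B, F A → F B → (A ∩ B).Nonempty → A ⊆ B ∨ B ⊆ A)
    (P Q S W : Set V) (hP : F P) (hQ : F Q) (hS : F S) (m1 : Q.ncard ≤ P.ncard)
    (m2 : S.ncard ≤ P.ncard) (h1 : (P ∩ Q).Nonempty) (h2 : (Q ∩ S).Nonempty)
    (h3 : (S ∩ W).Nonempty) : (P ∩ W).Nonempty := by
  have k : ∀ A, F A → A.ncard ≤ P.ncard → (P ∩ A).Nonempty → A ⊆ P := by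
    intro A hA m h
    rcases hlam P A hP hA h with h | h
    · exact (Set.eq_of_subset_of_ncard_le h m (Set.toFinite _)).ge
    · exact h
  have e1 := k Q hQ m1 h1
  have e2 := k S hS m2 (h2.mono (Set.inter_subset_inter_left _ e1))
  exact h3.mono (Set.inter_subset_inter_left _ e2)

lemma six {V : Type} [Fintype V] (F : Set V → Prop)
    (hlam : ∀ A B, F A → F B → (A ∩ B).Nonempty → A ⊆ B ∨ B ⊆ A)
    (a1 a2 a3 b1 b2 b3 : Set V) (f1 : F a1) (f2 : F a2) (f3 : F a3) (g1 : F b1) (g2 : F b2)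
    (g3 : F b3) (n1 : ¬ (a1 ∩ b1).Nonempty) (n2 : ¬ (a2 ∩ b2).Nonempty)
    (n3 : ¬ (a3 ∩ b3).Nonempty) (h12 : (a1 ∩ b2).Nonempty) (h13 : (a1 ∩ b3).Nonempty)
    (h21 : (a2 ∩ b1).Nonempty) (h23 : (a2 ∩ b3).Nonempty) (h31 : (a3 ∩ b1).Nonempty)
    (h32 : (a3 ∩ b2).Nonempty) : False := by
  have sw : ∀ {A B : Set V}, (A ∩ B).Nonempty → (B ∩ A).Nonempty := fun h => by
    rwa [Set.inter_comm]
  have c := core F hlam
  by_cases m1 : b2.ncard ≤ a1.ncard ∧ a3.ncard ≤ a1.ncard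
  · exact n1 (c a1 b2 a3 b1 f1 g2 f3 m1.1 m1.2 h12 (sw h32) h31)
  by_cases m2 : b3.ncard ≤ a2.ncard ∧ a1.ncard ≤ a2.ncard
  · exact n2 (c a2 b3 a1 b2 f2 g3 f1 m2.1 m2.2 h23 (sw h13) h12)
  by_cases m3 : b1.ncard ≤ a3.ncard ∧ a2.ncard ≤ a3.ncard
  · exact n3 (c a3 b1 a2 b3 f3 g1 f2 m3.1 m3.2 h31 (sw h21) h23)
  by_cases m4 : a2.ncard ≤ b1.ncard ∧ b3.ncard ≤ b1.ncard
  · exact n1 (sw (c b1 a2 b3 a1 g1 f2 g3 m4.1 m4.2 (sw h21) h23 (sw h13)))
  by_cases m5 : a3.ncard ≤ b2.ncard ∧ b1.ncard ≤ b2.ncard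
  · exact n2 (sw (c b2 a3 b1 a2 g2 f3 g1 m5.1 m5.2 (sw h32) h31 (sw h21)))
  by_cases m6 : a1.ncard ≤ b3.ncard ∧ b2.ncard ≤ b3.ncard
  · exact n3 (sw (c b3 a1 b2 a3 g3 f1 g2 m6.1 m6.2 (sw h13) h12 (sw h32)))
  omega

open Classical in
theorem abstract {V R : Type} [Fintype V] [Fintype R] [DecidableEq R] (G : SimpleGraph R)
    (F : Set V → Prop) (ρ : V) (hc : ∀ A, F A → F Aᶜ) (hne : ∀ A, F A → A.Nonempty)
    (hx : ∀ A B, F A → F B → A ⊆ B ∨ Aᶜ ⊆ B ∨ A ⊆ Bᶜ ∨ Aᶜ ⊆ Bᶜ)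
    (X Y : R → Set V) (hX : ∀ r, F (X r)) (hY : ∀ r, F (Y r)) (hXY : ∀ r, Y r ⊆ X r)
    (hG : ∀ a b, G.Adj a b ↔ a ≠ b ∧ (Y b ⊆ X a ∨ Y a ⊆ X b))
    (n : ℕ) (hn : G.Colorable n) (m : ℕ) (hr : Run G univ m) : m ≤ 6 * n := by
  haveI : Nonempty V := ⟨ρ⟩
  set F' : Set V → Prop := fun A => F A ∧ ρ ∉ A with hF'
  have hlam : ∀ A B, F' A → F' B → (A ∩ B).Nonempty → A ⊆ B ∨ B ⊆ A := by
    rintro A B ⟨a1, a2⟩ ⟨b1, b2⟩ ⟨z, z1, z2⟩
    rcases hx A B a1 b1 with h | h | h | h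
    · exact Or.inl h
    · exact absurd (h a2) b2
    · exact absurd z2 (h z1)
    · exact Or.inr (Set.compl_subset_compl.1 h)
  set KA : R → Prop := fun r => ρ ∈ Y r with hKA
  set KB : R → Prop := fun r => ρ ∉ X r with hKB
  set KU : R → Prop := fun r => ρ ∈ X r ∧ ρ ∉ Y r with hKU
  have fA : ∀ r, KA r → F' (Y r)ᶜ := fun r h => ⟨hc _ (hY r), fun h' => h' h⟩
  have fA' : ∀ r, ρ ∈ X r → F' (X r)ᶜ := fun r h => ⟨hc _ (hX r), fun h' => h' h⟩
  have fB : ∀ r, KB r → F' (X r) := fun r h => ⟨hX r, h⟩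
  have fB' : ∀ r, ρ ∉ Y r → F' (Y r) := fun r h => ⟨hY r, h⟩
  have adjA : ∀ r r', KA r → KA r' → r ≠ r' → (G.Adj r r' ↔ ((Y r)ᶜ ∩ (Y r')ᶜ).Nonempty) := by
    intro r r' h h' hne'
    rw [hG]
    constructor
    · rintro ⟨_, k | k⟩
      · obtain ⟨z, hz⟩ := hne _ (hc _ (hX r))
        exact ⟨z, fun t => hz (hXY r t), fun t => hz (k t)⟩
      · obtain ⟨z, hz⟩ := hne _ (hc _ (hX r'))
        exact ⟨z, fun t => hz (k t), fun t => hz (hXY r' t)⟩
    · intro k
      refine ⟨hne', ?_⟩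
      rcases hlam _ _ (fA r h) (fA r' h') k with k | k
      · exact Or.inl ((Set.compl_subset_compl.1 k).trans (hXY r))
      · exact Or.inr ((Set.compl_subset_compl.1 k).trans (hXY r'))
  have adjB : ∀ r r', KB r → KB r' → r ≠ r' → (G.Adj r r' ↔ (X r ∩ X r').Nonempty) := by
    intro r r' h h' hne'
    rw [hG]
    constructor
    · rintro ⟨_, k | k⟩
      · obtain ⟨z, hz⟩ := hne _ (hY r')
        exact ⟨z, k hz, hXY r' hz⟩
      · obtain ⟨z, hz⟩ := hne _ (hY r)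
        exact ⟨z, hXY r hz, k hz⟩
    · intro k
      refine ⟨hne', ?_⟩
      rcases hlam _ _ (fB r h) (fB r' h') k with k | k
      · exact Or.inr ((hXY r).trans k)
      · exact Or.inl ((hXY r').trans k)
  have nadj : ∀ a b, a ≠ b → ¬ G.Adj a b → ((X a)ᶜ ∩ Y b).Nonempty := by
    intro a b hab h
    rw [hG] at h
    have : ¬ Y b ⊆ X a := fun k => h ⟨hab, Or.inl k⟩
    obtain ⟨z, z1, z2⟩ := Set.not_subset.1 this
    exact ⟨z, z2, z1⟩
  have mixed : ∀ I : Finset R, G.IsIndepSet (I : Set R) →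
      (I.filter KA).card ≤ 1 ∨ (I.filter KB).card ≤ 1 := by
    intro I hI
    by_contra hcon
    push Not at hcon
    obtain ⟨a1, p1, a2, p2, p3⟩ := one_lt_card.1 hcon.1
    obtain ⟨b1, q1, b2, q2, q3⟩ := one_lt_card.1 hcon.2
    rw [mem_filter] at p1 p2 q1 q2
    have nab : ∀ a b, KA a → KB b → a ≠ b := by
      rintro a b h h' rfl
      exact h' (hXY a h)
    have mm : ∀ a b, a ∈ I → b ∈ I → KA a → KB b → ((X a)ᶜ ∩ Y b).Nonempty :=
      fun a b ha hb h h' => nadj a b (nab a b h h') (hI ha hb (nab a b h h'))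
    have d1 : ¬ ((Y a1)ᶜ ∩ (Y a2)ᶜ).Nonempty :=
      fun k => hI p1.1 p2.1 p3 ((adjA a1 a2 p1.2 p2.2 p3).2 k)
    have d2 : ¬ (X b1 ∩ X b2).Nonempty :=
      fun k => hI q1.1 q2.1 q3 ((adjB b1 b2 q1.2 q2.2 q3).2 k)
    rcases hlam _ _ (fA' a1 (hXY _ p1.2)) (fB' b1 (fun t => q1.2 (hXY _ t)))
      (mm a1 b1 p1.1 q1.1 p1.2 q1.2) with k | k
    · obtain ⟨z, z1, z2⟩ := mm a1 b2 p1.1 q2.1 p1.2 q2.2
      exact d2 ⟨z, hXY _ (k z1), hXY _ z2⟩
    · obtain ⟨z, z1, z2⟩ := mm a2 b1 p2.1 q1.1 p2.2 q1.2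
      exact d1 ⟨z, fun t => k z2 (hXY _ t), fun t => z1 (hXY _ t)⟩
  have uni : (univ.filter KU).card ≤ 2 * n := by
    obtain ⟨C⟩ := hn
    have := card_le_mul_card_image_of_maps_to (s := univ.filter KU) (t := (univ : Finset (Fin n)))
      (f := fun r => C r) (fun _ _ => mem_univ _) 2 ?_
    · simpa using this
    intro c _
    by_contra hcon
    push Not at hcon
    obtain ⟨a, ha, b, hb, d, hd, n1, n2, n3⟩ := two_lt_card.1 hcon
    simp only [mem_filter, mem_univ, true_and] at ha hb hd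
    have na : ∀ u v, KU u ∧ C u = c → KU v ∧ C v = c → u ≠ v → ((X u)ᶜ ∩ Y v).Nonempty :=
      fun u v hu hv h => nadj u v h fun k => C.valid k (hu.2.trans hv.2.symm)
    have dj : ∀ u, ¬ ((X u)ᶜ ∩ Y u).Nonempty := fun u ⟨z, z1, z2⟩ => z1 (hXY u z2)
    exact six F' hlam _ _ _ _ _ _ (fA' a ha.1.1) (fA' b hb.1.1) (fA' d hd.1.1) (fB' a ha.1.2)
      (fB' b hb.1.2) (fB' d hd.1.2) (dj a) (dj b) (dj d) (na a b ha hb n1) (na a d ha hd n2)
      (na b a hb ha n1.symm) (na b d hb hd n3) (na d a hd ha n2.symm) (na d b hd hb n3.symm)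
  have main : ∀ U m, Run G U m →
      m ≤ phi KA (fun r => (Y r)ᶜ) U + phi KB X U + (U.filter KU).card := by
    intro U m h
    induction h with
    | done => exact Nat.zero_le _
    | step U I m hU hI hind hmax _ ih =>
      have m1 := phi_mono KA (fun r => (Y r)ᶜ) (sdiff_subset (s := U) (t := I))
      have m2 := phi_mono KB X (sdiff_subset (s := U) (t := I))
      have m3 : ((U \ I).filter KU).card ≤ (U.filter KU).card :=
        card_le_card (filter_subset_filter _ sdiff_subset)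
      by_cases hu : ∃ u ∈ I, KU u
      · obtain ⟨u, hu1, hu2⟩ := hu
        have : ((U \ I).filter KU).card < (U.filter KU).card := by
          refine card_lt_card ⟨filter_subset_filter _ sdiff_subset, fun hs => ?_⟩
          have := hs (mem_filter.2 ⟨hI hu1, hu2⟩)
          exact (mem_sdiff.1 (mem_filter.1 this).1).2 hu1
        omega
      · have hsub : I ⊆ I.filter KA ∪ I.filter KB := by
          intro r hr
          rw [mem_union, mem_filter, mem_filter]
          by_cases h1 : ρ ∈ Y r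
          · exact Or.inl ⟨hr, h1⟩
          · exact Or.inr ⟨hr, fun h2 => hu ⟨r, hr, h2, h1⟩⟩
        have hcard := le_trans (card_le_card hsub) (card_union_le _ _)
        have hI1 : 1 ≤ I.card := by
          obtain ⟨r, hr⟩ := hU
          have := hmax {r} (singleton_subset_iff.2 hr) (by simp)
          simpa using this
        have dA := dec KA (fun r => (Y r)ᶜ) G (fun r h => hne _ (fA r h).1)
          (fun r r' h h' => hlam _ _ (fA r h) (fA r' h')) adjA U I hI hind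
        have dB := dec KB X G (fun r h => hne _ (fB r h).1)
          (fun r r' h h' => hlam _ _ (fB r h) (fB r' h')) adjB U I hI hind
        have ex : ∀ (K : R → Prop) [DecidablePred K], 1 ≤ (I.filter K).card → ∃ q ∈ I, K q := by
          intro K _ h
          obtain ⟨q, hq⟩ := card_pos.1 h
          exact ⟨q, (mem_filter.1 hq).1, (mem_filter.1 hq).2⟩
        have : (1 ≤ (I.filter KA).card ∧ (I.filter KB).card ≤ 1) ∨
            (1 ≤ (I.filter KB).card ∧ (I.filter KA).card ≤ 1) := by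
          have := mixed I hind
          omega
        rcases this with ⟨h1, h2⟩ | ⟨h1, h2⟩
        · have := dA (ex KA h1) (fun J hJ hJ' => by have := hmax J hJ hJ'; omega)
          omega
        · have := dB (ex KB h1) (fun J hJ hJ' => by have := hmax J hJ hJ'; omega)
          omega
  have h1 := main _ _ hr
  have h2 := phi_le KA (fun r => (Y r)ᶜ) G n hn adjA univ
  have h3 := phi_le KB X G n hn adjB univ
  omega

open Pool.Agent.H32.Side in
theorem result (V : Type) [Fintype V] (T : SimpleGraph V) (hT : T.IsTree)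
    (R : Type) [Fintype R] [DecidableEq R] (req : R → Req T) (m : ℕ)
    (hr : Run (IG req) Finset.univ m) : (m : ℕ∞) ≤ 6 * (IG req).chromaticNumber := by
  obtain ⟨ρ⟩ := hT.connected.nonempty
  have a1 : ∀ r : Req T, T.Adj r.s r.p.snd := fun r => r.p.adj_snd r.notNil
  have a2 : ∀ r : Req T, T.Adj r.p.penultimate r.t := fun r => r.p.adj_penultimate r.notNil
  have hI : ∀ r r' : Req T, Interferes r r' ↔
      side T r'.p.penultimate r'.t ⊆ side T r.s r.p.snd :=
    fun r r' => path_iff hT (a1 r) (a2 r')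
  have h := abstract (IG req) (fun A => ∃ u v, T.Adj u v ∧ A = side T u v) ρ ?_ ?_ ?_
    (fun r => side T (req r).s (req r).p.snd) (fun r => side T (req r).p.penultimate (req r).t)
    (fun r => ⟨_, _, a1 _, rfl⟩) (fun r => ⟨_, _, a2 _, rfl⟩)
    (fun r => (hI _ _).1 ⟨(req r).p, (req r).isPath, (req r).notNil, rfl, rfl⟩) ?_
    _ (IG req).colorable_chromaticNumber_of_fintype m hr
  · have h2 : (m : ℕ∞) ≤ ((6 * (IG req).chromaticNumber.toNat : ℕ) : ℕ∞) := by exact_mod_cast h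
    refine le_trans h2 ?_
    push_cast
    exact mul_le_mul' le_rfl (ENat.natCast_toNat_le_self _)
  · rintro A ⟨u, v, h, rfl⟩
    exact ⟨v, u, h.symm, compl_side hT h⟩
  · rintro A ⟨u, v, _, rfl⟩
    exact ⟨v, self_mem u v⟩
  · rintro A B ⟨x, y, h', rfl⟩ ⟨u, v, h, rfl⟩
    exact cross hT h h'
  · intro a b
    unfold IG
    rw [SimpleGraph.fromRel_adj, hI, hI]

end Pool.Agent.Results.MP_9b45c5_lc.Six
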